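import Mathlib

namespace Pool.Agent.H.MP_9c8b61_co

/-- Points of the plane. -/
abbrev Pt := ℝ × ℝ

/-- The standard inner product. -/
def ip (a b : Pt) : ℝ := a.1 * b.1 + a.2 * b.2

/-- The Euclidean distance. -/
noncomputable def ed (a b : Pt) : ℝ := √((a.1 - b.1) ^ 2 + (a.2 - b.2) ^ 2)

/-- No three points are collinear. -/
def GenPos (A : Finset Pt) : Prop :=
  ∀ a ∈ A, ∀ b ∈ A, ∀ c ∈ A, a ≠ b → a ≠ c → b ≠ c → ¬ Collinear ℝ {a, b, c}

/-- The largest distance is at most `α √n` times the smallest distance. -/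
def IsDense (α : ℝ) (A : Finset Pt) : Prop :=
  ∀ a ∈ A, ∀ b ∈ A, ∀ c ∈ A, ∀ d ∈ A, c ≠ d → ed a b ≤ α * √(A.card : ℝ) * ed c d

/-- A monotone path `v 0, …, v t` with vertices in `A`. -/
structure MPath (A : Finset Pt) where
  t : ℕ
  v : ℕ → Pt
  mem : ∀ i ≤ t, v i ∈ A
  mono : ∃ u : Pt, u ≠ 0 ∧ ∀ i < t, 0 < ip (v (i + 1) - v i) u

/-- The segment `ab` is an edge of the path. -/
def MPath.HasEdge {A : Finset Pt} (ξ : MPath A) (a b : Pt) : Prop :=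
  ∃ i < ξ.t, (ξ.v i = a ∧ ξ.v (i + 1) = b) ∨ (ξ.v i = b ∧ ξ.v (i + 1) = a)

/-- The sizes of the families of monotone paths that cover all edges of `K_n[A]`. -/
def coverSizes (A : Finset Pt) : Set ℕ :=
  {k | ∃ f : Fin k → MPath A, ∀ a ∈ A, ∀ b ∈ A, a ≠ b → ∃ j, (f j).HasEdge a b}

/-- The least size of a covering family. -/
noncomputable def mc (A : Finset Pt) : ℕ := sInf (coverSizes A)

theorem ip_sub (a b u : Pt) : ip (a - b) u = ip a u - ip b u := by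
  simp only [ip, Prod.fst_sub, Prod.snd_sub]; ring

theorem cover_of {A : Finset Pt} {ι : Type} (T : Finset ι) (f : ι → MPath A)
    (h : ∀ a ∈ A, ∀ b ∈ A, a ≠ b → ∃ j ∈ T, (f j).HasEdge a b) : T.card ∈ coverSizes A := by
  refine ⟨fun j => f (T.equivFin.symm j), fun a ha b hb hab => ?_⟩
  obtain ⟨j, hj, e⟩ := h a ha b hb hab
  exact ⟨T.equivFin ⟨j, hj⟩, by simpa using e⟩

def triv {A : Finset Pt} (a : Pt) (ha : a ∈ A) : MPath A where
  t := 0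
  v _ := a
  mem _ _ := ha
  mono := ⟨(1, 0), by simp, by simp⟩

theorem sorted {A : Finset Pt} (hA : A.Nonempty) (u : Pt) : ∃ ξ : MPath A,
    Set.InjOn (fun a => ip a u) A → ∀ a ∈ A, ∀ b ∈ A, a ≠ b →
      (∀ c ∈ A, 0 ≤ (ip c u - ip a u) * (ip c u - ip b u)) → ξ.HasEdge a b := by
  classical
  obtain ⟨a0, ha0⟩ := hA
  by_cases hinj : Set.InjOn (fun a => ip a u) A
  swap
  · exact ⟨triv a0 ha0, fun h => absurd h hinj⟩
  by_cases hu : u = 0
  · refine ⟨triv a0 ha0, fun _ a ha b hb hab _ => absurd (hinj ha hb ?_) hab⟩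
    simp [hu, ip]
  obtain ⟨n, hn⟩ : ∃ n, A.card = n + 1 :=
    ⟨A.card - 1, by have := Finset.card_pos.mpr ⟨a0, ha0⟩; omega⟩
  let e : Fin (n + 1) ≃ A := (A.equivFin.trans (finCongr hn)).symm
  let g : Fin (n + 1) → ℝ := fun i => ip (e i) u
  let σ := Tuple.sort g
  have hs : StrictMono (g ∘ σ) := by
    refine (Tuple.monotone_sort g).strictMono_of_injective ?_
    intro i j hij
    exact σ.injective (e.injective (Subtype.ext (hinj (e _).2 (e _).2 hij)))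
  let w : ℕ → Pt := fun i => if h : i < n + 1 then e (σ ⟨i, h⟩) else a0
  have hw : ∀ i : Fin (n + 1), w i = e (σ i) := fun i => by simp only [w, dif_pos i.2]
  have hg : ∀ i : Fin (n + 1), ip (w i) u = (g ∘ σ) i := fun i => by rw [hw]; rfl
  refine ⟨⟨n, w, fun i hi => ?_, u, hu, fun i hi => ?_⟩, fun _ a ha b hb hab hc => ?_⟩
  · rw [hw ⟨i, by omega⟩]; exact (e _).2
  · rw [ip_sub, hg ⟨i + 1, by omega⟩, hg ⟨i, by omega⟩, sub_pos]
    exact hs (Fin.mk_lt_mk.mpr (by omega))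
  · have key : ∀ i j : Fin (n + 1), i < j →
        (∀ c ∈ A, 0 ≤ (ip c u - ip (w i) u) * (ip c u - ip (w j) u)) → (j : ℕ) = i + 1 := by
      intro i j hij h
      by_contra hne
      have hij' : (i : ℕ) < j := hij
      have hlt : (i : ℕ) + 1 < n + 1 := by omega
      have h1 := h (w (i + 1)) (by rw [hw ⟨i + 1, hlt⟩]; exact (e _).2)
      rw [hg ⟨i + 1, hlt⟩, hg, hg] at h1
      have h2 : (g ∘ σ) i < (g ∘ σ) ⟨i + 1, hlt⟩ := hs (Fin.lt_def.mpr (by simp))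
      have h3 : (g ∘ σ) ⟨i + 1, hlt⟩ < (g ∘ σ) j := hs (Fin.lt_def.mpr (by simp; omega))
      nlinarith
    obtain ⟨i, hi⟩ : ∃ i : Fin (n + 1), w i = a := ⟨σ.symm (e.symm ⟨a, ha⟩), by rw [hw]; simp⟩
    obtain ⟨j, hj⟩ : ∃ j : Fin (n + 1), w j = b := ⟨σ.symm (e.symm ⟨b, hb⟩), by rw [hw]; simp⟩
    subst hi hj
    rcases lt_trichotomy i j with h | h | h
    · have := key i j h hc
      exact ⟨i, by show (i : ℕ) < n; omega, Or.inl ⟨rfl, by show w _ = _; rw [this]⟩⟩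
    · exact absurd (by rw [h]) hab
    · have := key j i h (fun c hc' => by rw [mul_comm]; exact hc c hc')
      exact ⟨j, by show (j : ℕ) < n; omega, Or.inr ⟨rfl, by show w _ = _; rw [this]⟩⟩

theorem cover_nonempty (A : Finset Pt) : (coverSizes A).Nonempty := by
  classical
  have : ∀ p : A × A, ∃ ξ : MPath A, p.1 ≠ p.2 → ξ.HasEdge p.1 p.2 := by
    rintro ⟨a, b⟩
    by_cases h : a = b
    · exact ⟨triv a a.2, fun h' => absurd h h'⟩
    have hne : (b : Pt) - a ≠ 0 := sub_ne_zero.mpr fun e => h (Subtype.ext e.symm)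
    refine ⟨⟨1, fun i => if i = 0 then a else b, fun i _ => by split_ifs; exacts [a.2, b.2],
      b - a, hne, fun i hi => ?_⟩, fun _ => ⟨0, one_pos, Or.inl ⟨rfl, rfl⟩⟩⟩
    obtain rfl : i = 0 := by omega
    simp only [zero_add, one_ne_zero, if_false, if_true]
    generalize (b : Pt) - a = z at hne
    by_contra hz
    apply hne
    unfold ip at hz
    ext <;> simp <;> nlinarith [mul_self_nonneg z.1, mul_self_nonneg z.2]
  choose f hf using this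
  refine ⟨_, cover_of Finset.univ f fun a ha b hb hab => ⟨(⟨a, ha⟩, ⟨b, hb⟩), by simp, ?_⟩⟩
  exact hf (⟨a, ha⟩, ⟨b, hb⟩) (fun e => hab (congrArg Subtype.val e))

/-- Grid points. -/
def InG (N : ℕ) (q : ℤ × ℤ) : Prop := 0 ≤ q.1 ∧ q.1 < N ∧ 0 ≤ q.2 ∧ q.2 < N

/-- Perturbed grid points. -/
def P (N : ℕ) (h : ℤ × ℤ → ℝ) (q : ℤ × ℤ) : Pt := (q.1 + h q, q.2 + N * h q)

def Small (N : ℕ) (h : ℤ × ℤ → ℝ) : Prop := ∀ q, InG N q → 0 ≤ h q ∧ 8 * (N : ℝ) ^ 2 * h q ≤ 1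

theorem InG.one_le {N : ℕ} {q : ℤ × ℤ} (hq : InG N q) : (1 : ℝ) ≤ N := by
  have : (1 : ℤ) ≤ N := by have := hq.1; have := hq.2.1; omega
  exact_mod_cast this

theorem InG.real {N : ℕ} {q : ℤ × ℤ} (hq : InG N q) :
    (0 : ℝ) ≤ q.1 ∧ (q.1 : ℝ) + 1 ≤ N ∧ (0 : ℝ) ≤ q.2 ∧ (q.2 : ℝ) + 1 ≤ N := by
  obtain ⟨h1, h2, h3, h4⟩ := hq
  exact ⟨by exact_mod_cast h1, by exact_mod_cast h2, by exact_mod_cast h3, by exact_mod_cast h4⟩

theorem Small.bd {N : ℕ} {h : ℤ × ℤ → ℝ} (hs : Small N h) {q : ℤ × ℤ} (hq : InG N q) :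
    0 ≤ h q ∧ h q ≤ 1 / 8 ∧ 0 ≤ N * h q ∧ N * h q ≤ 1 / 8 := by
  obtain ⟨h1, h2⟩ := hs q hq
  have h3 := hq.one_le
  have h4 : h q ≤ N * h q := by nlinarith
  have h5 : N * h q ≤ (N : ℝ) ^ 2 * h q := by nlinarith
  exact ⟨h1, by linarith, by linarith, by linarith⟩

theorem ed_ge {N : ℕ} {h : ℤ × ℤ → ℝ} (hs : Small N h) {q r : ℤ × ℤ} (hq : InG N q)
    (hr : InG N r) (hne : q ≠ r) : 1 / 2 ≤ ed (P N h q) (P N h r) := by
  obtain ⟨a1, a2, a3, a4⟩ := hs.bd hq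
  obtain ⟨b1, b2, b3, b4⟩ := hs.bd hr
  apply Real.le_sqrt_of_sq_le
  simp only [P]
  have : q.1 + 1 ≤ r.1 ∨ r.1 + 1 ≤ q.1 ∨ q.2 + 1 ≤ r.2 ∨ r.2 + 1 ≤ q.2 := by
    by_contra hc
    exact hne (Prod.ext (by omega) (by omega))
  rcases this with h1 | h1 | h1 | h1
  · have : (q.1 : ℝ) + 1 ≤ r.1 := by exact_mod_cast h1
    nlinarith [sq_nonneg (q.2 + N * h q - (r.2 + N * h r))]
  · have : (r.1 : ℝ) + 1 ≤ q.1 := by exact_mod_cast h1
    nlinarith [sq_nonneg (q.2 + N * h q - (r.2 + N * h r))]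
  · have : (q.2 : ℝ) + 1 ≤ r.2 := by exact_mod_cast h1
    nlinarith [sq_nonneg (q.1 + h q - (r.1 + h r))]
  · have : (r.2 : ℝ) + 1 ≤ q.2 := by exact_mod_cast h1
    nlinarith [sq_nonneg (q.1 + h q - (r.1 + h r))]

theorem P_inj {N : ℕ} {h : ℤ × ℤ → ℝ} (hs : Small N h) {q r : ℤ × ℤ} (hq : InG N q)
    (hr : InG N r) (e : P N h q = P N h r) : q = r := by
  by_contra hne
  have := ed_ge hs hq hr hne
  rw [e] at this
  simp [ed] at this
  linarith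

theorem P_box {N : ℕ} {h : ℤ × ℤ → ℝ} (hs : Small N h) {q : ℤ × ℤ} (hq : InG N q) :
    0 ≤ (P N h q).1 ∧ (P N h q).1 ≤ N ∧ 0 ≤ (P N h q).2 ∧ (P N h q).2 ≤ N := by
  obtain ⟨a1, a2, a3, a4⟩ := hs.bd hq
  obtain ⟨b1, b2, b3, b4⟩ := hq.real
  simp only [P]
  exact ⟨by linarith, by linarith, by linarith, by linarith⟩

theorem ed_le {N : ℕ} {h : ℤ × ℤ → ℝ} (hs : Small N h) {q r : ℤ × ℤ} (hq : InG N q)
    (hr : InG N r) : ed (P N h q) (P N h r) ≤ 2 * N := by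
  obtain ⟨a1, a2, a3, a4⟩ := P_box hs hq
  obtain ⟨b1, b2, b3, b4⟩ := P_box hs hr
  apply Real.sqrt_le_iff.mpr ⟨by positivity, _⟩
  nlinarith

def c (N : ℕ) (q : ℤ × ℤ) : ℤ := q.2 - N * q.1

theorem c_bd {N : ℕ} {q r : ℤ × ℤ} (hq : InG N q) (hr : InG N r) :
    |(c N q : ℝ) - c N r| ≤ 2 * (N : ℝ) ^ 2 := by
  obtain ⟨a1, a2, a3, a4⟩ := hq.real
  obtain ⟨b1, b2, b3, b4⟩ := hr.real
  have := hq.one_le
  simp only [c]
  push_cast
  rw [abs_le]
  constructor <;> nlinarith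

theorem c_inj {N : ℕ} {q r : ℤ × ℤ} (hq : InG N q) (hr : InG N r) (e : c N q = c N r) : q = r := by
  obtain ⟨a1, a2, a3, a4⟩ := hq
  obtain ⟨b1, b2, b3, b4⟩ := hr
  simp only [c] at e
  have : q.1 = r.1 := by
    rcases lt_trichotomy q.1 r.1 with h | h | h
    · nlinarith
    · exact h
    · nlinarith
  exact Prod.ext this (by rw [this] at e; omega)

open Classical in
theorem good {N : ℕ} {h : ℤ × ℤ → ℝ} (hs : Small N h) (Q : Finset (ℤ × ℤ)) (hQ : ∀ q ∈ Q, InG N q)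
    (hN : (N : ℝ) ^ 2 ≤ 4 * Q.card)
    (hc : ∀ q r s, InG N q → InG N r → InG N s → q ≠ r → q ≠ s → r ≠ s →
      (r.1 - q.1) * (s.2 - q.2) = (r.2 - q.2) * (s.1 - q.1) →
      (h r - h q) * (c N s - c N q) ≠ (h s - h q) * (c N r - c N q)) :
    (Q.image (P N h)).card = Q.card ∧ GenPos (Q.image (P N h)) ∧ IsDense 8 (Q.image (P N h)) := by
  have hcard : (Q.image (P N h)).card = Q.card :=
    Finset.card_image_of_injOn fun q hq r hr e => P_inj hs (hQ q hq) (hQ r hr) e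
  refine ⟨hcard, ?_, ?_⟩
  · intro a ha b hb d hd hab had hbd hcol
    obtain ⟨q, hq, rfl⟩ := Finset.mem_image.mp ha
    obtain ⟨r, hr, rfl⟩ := Finset.mem_image.mp hb
    obtain ⟨s, hs', rfl⟩ := Finset.mem_image.mp hd
    have hq := hQ q hq
    have hr := hQ r hr
    have hs' := hQ s hs'
    obtain ⟨v, hv⟩ := (collinear_iff_of_mem (p₀ := P N h q) (by simp)).mp hcol
    obtain ⟨x, hx⟩ := hv (P N h r) (by simp)
    obtain ⟨y, hy⟩ := hv (P N h s) (by simp)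
    have x1 := congrArg Prod.fst hx
    have x2 := congrArg Prod.snd hx
    have y1 := congrArg Prod.fst hy
    have y2 := congrArg Prod.snd hy
    simp only [P, vadd_eq_add, Prod.fst_add, Prod.snd_add, Prod.smul_fst, Prod.smul_snd,
      smul_eq_mul] at x1 x2 y1 y2
    have hd : (((r.1 - q.1) * (s.2 - q.2) - (r.2 - q.2) * (s.1 - q.1) : ℤ) : ℝ) =
        (h s - h q) * (c N r - c N q) - (h r - h q) * (c N s - c N q) := by
      simp only [c]
      push_cast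
      have e1 : (r.1 : ℝ) = x * v.1 + (q.1 + h q) - h r := by linarith
      have e2 : (r.2 : ℝ) = x * v.2 + (q.2 + N * h q) - N * h r := by linarith
      have e3 : (s.1 : ℝ) = y * v.1 + (q.1 + h q) - h s := by linarith
      have e4 : (s.2 : ℝ) = y * v.2 + (q.2 + N * h q) - N * h s := by linarith
      rw [e1, e2, e3, e4]
      ring
    have b1 : ∀ t, InG N t → ∀ z, InG N z → |(h t - h q) * (c N z - c N q)| ≤ 1 / 4 := by
      intro t ht z hz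
      rw [abs_mul]
      have h1 := c_bd hz hq
      obtain ⟨h2, h3⟩ := hs t ht
      obtain ⟨h4, h5⟩ := hs q hq
      have h6 : |h t - h q| * (8 * (N : ℝ) ^ 2) ≤ 1 := by
        rcases abs_cases (h t - h q) with ⟨e, _⟩ | ⟨e, _⟩ <;> rw [e] <;> nlinarith [sq_nonneg (N : ℝ)]
      nlinarith [abs_nonneg (h t - h q)]
    have b2 := abs_le.mp (b1 s hs' r hr)
    have b3 := abs_le.mp (b1 r hr s hs')
    have hz : (r.1 - q.1) * (s.2 - q.2) - (r.2 - q.2) * (s.1 - q.1) = 0 := by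
      generalize (r.1 - q.1) * (s.2 - q.2) - (r.2 - q.2) * (s.1 - q.1) = z at hd
      have h1 : (z : ℝ) < 1 := by linarith
      have h2 : (-1 : ℝ) < z := by linarith
      have h1' : z < 1 := by exact_mod_cast h1
      have h2' : -1 < z := by exact_mod_cast h2
      omega
    rw [hz] at hd
    refine hc q r s hq hr hs' (fun e => hab (by rw [e])) (fun e => had (by rw [e]))
      (fun e => hbd (by rw [e])) (by linarith) ?_
    push_cast at hd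
    linarith
  · intro a ha b hb d hd e he hde
    obtain ⟨q, hq, rfl⟩ := Finset.mem_image.mp ha
    obtain ⟨r, hr, rfl⟩ := Finset.mem_image.mp hb
    obtain ⟨s, hs', rfl⟩ := Finset.mem_image.mp hd
    obtain ⟨t, ht, rfl⟩ := Finset.mem_image.mp he
    have h1 := ed_le hs (hQ q hq) (hQ r hr)
    have h2 := ed_ge hs (hQ s hs') (hQ t ht) (fun e => hde (by rw [e]))
    rw [hcard]
    have h3 : (N : ℝ) / 2 ≤ √(Q.card : ℝ) := Real.le_sqrt_of_sq_le (by linarith)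
    have h4 : (0 : ℝ) ≤ N := Nat.cast_nonneg N
    nlinarith

theorem grid (n : ℕ) (hn : 1 ≤ n) : ∃ Q : Finset (ℤ × ℤ), Q.card = n ∧
    (∀ q ∈ Q, InG (n.sqrt + 1) q) ∧ (∀ q, InG n.sqrt q → q ∈ Q) ∧
    (((n.sqrt + 1 : ℕ) : ℝ)) ^ 2 ≤ 4 * n := by
  have hc : ∀ N : ℕ, (Finset.Ico (0 : ℤ) N ×ˢ Finset.Ico (0 : ℤ) N).card = N * N := by
    intro N; simp
  have hm : ∀ (N : ℕ) q, q ∈ Finset.Ico (0 : ℤ) N ×ˢ Finset.Ico (0 : ℤ) N ↔ InG N q := by
    intro N q; simp [InG, and_assoc]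
  obtain ⟨Q, h1, h2, h3⟩ := Finset.exists_subsuperset_card_eq (n := n)
    (s := Finset.Ico (0 : ℤ) n.sqrt ×ˢ Finset.Ico (0 : ℤ) n.sqrt)
    (t := Finset.Ico (0 : ℤ) (n.sqrt + 1 : ℕ) ×ˢ Finset.Ico (0 : ℤ) (n.sqrt + 1 : ℕ))
    (fun q hq => by
      rw [hm] at hq ⊢
      obtain ⟨a, b, c, d⟩ := hq
      exact ⟨a, by push_cast; omega, c, by push_cast; omega⟩)
    (by rw [hc]; exact Nat.sqrt_le n) (by rw [hc]; exact (Nat.lt_succ_sqrt n).le)
  refine ⟨Q, h3, fun q hq => (hm _ q).mp (h2 hq), fun q hq => h1 ((hm _ q).mpr hq), ?_⟩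
  have a1 : 1 ≤ n.sqrt := Nat.le_sqrt.mpr (by omega)
  have a2 := Nat.sqrt_le n
  have : (n.sqrt + 1) ^ 2 ≤ 4 * n := by nlinarith
  exact_mod_cast this

end Pool.Agent.H.MP_9c8b61_co
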