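import Pool.Agent.H.MP_9c8b61_co.A

namespace Pool.Agent.H.MP_9c8b61_co

noncomputable def eps (N : ℕ) : ℝ := 1 / (40 * (N : ℝ) ^ 4)

/-- The quadratic perturbation. -/
noncomputable def hq (N : ℕ) (q : ℤ × ℤ) : ℝ := eps N * ((q.1 : ℝ) ^ 2 + (q.2 : ℝ) ^ 2)

theorem eps_spec {N : ℕ} (h : (1 : ℝ) ≤ N) : 0 < eps N ∧ eps N * (40 * (N : ℝ) ^ 4) = 1 := by
  unfold eps
  exact ⟨by positivity, by field_simp⟩

theorem sq_bd {N : ℕ} {q : ℤ × ℤ} (h : InG N q) :
    (q.1 : ℝ) ^ 2 + (q.2 : ℝ) ^ 2 ≤ 2 * (N : ℝ) ^ 2 := by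
  obtain ⟨a1, a2, a3, a4⟩ := h.real
  nlinarith

theorem hq_small (N : ℕ) : Small N (hq N) := by
  intro q h
  obtain ⟨e1, e2⟩ := eps_spec h.one_le
  have h1 := sq_bd h
  have h2 : 0 ≤ eps N * (N : ℝ) ^ 2 := by positivity
  refine ⟨by unfold hq; positivity, ?_⟩
  unfold hq
  nlinarith

theorem hq_gen (N : ℕ) (q r s : ℤ × ℤ) (hq' : InG N q) (hr : InG N r) (_ : InG N s)
    (h1 : q ≠ r) (h2 : q ≠ s) (h3 : r ≠ s)
    (hd : (r.1 - q.1) * (s.2 - q.2) = (r.2 - q.2) * (s.1 - q.1)) :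
    (hq N r - hq N q) * (c N s - c N q) ≠ (hq N s - hq N q) * (c N r - c N q) := by
  have hc : (c N r : ℝ) - c N q ≠ 0 := by
    intro e
    have : c N r = c N q := by exact_mod_cast sub_eq_zero.mp e
    exact h1 (c_inj hr hq' this).symm
  obtain ⟨e1, -⟩ := eps_spec hr.one_le
  obtain ⟨d1, hd1⟩ : ∃ d1 : ℝ, (r.1 : ℝ) = q.1 + d1 := ⟨r.1 - q.1, by ring⟩
  obtain ⟨d2, hd2⟩ : ∃ d2 : ℝ, (r.2 : ℝ) = q.2 + d2 := ⟨r.2 - q.2, by ring⟩
  have hD : 0 < d1 ^ 2 + d2 ^ 2 := by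
    by_contra h
    have a : d1 = 0 := by nlinarith [sq_nonneg d1, sq_nonneg d2]
    have b : d2 = 0 := by nlinarith [sq_nonneg d1, sq_nonneg d2]
    rw [a, add_zero] at hd1
    rw [b, add_zero] at hd2
    exact h1 (Prod.ext (by exact_mod_cast hd1.symm) (by exact_mod_cast hd2.symm))
  have hd' : ((r.1 : ℝ) - q.1) * (s.2 - q.2) = (r.2 - q.2) * (s.1 - q.1) := by exact_mod_cast hd
  obtain ⟨l, l1, l2⟩ : ∃ l : ℝ, (s.1 : ℝ) = q.1 + l * d1 ∧ (s.2 : ℝ) = q.2 + l * d2 := by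
    refine ⟨((s.1 - q.1) * d1 + (s.2 - q.2) * d2) / (d1 ^ 2 + d2 ^ 2), ?_, ?_⟩
    · field_simp
      rw [hd1, hd2] at hd'
      linear_combination (-d2) * hd'
    · field_simp
      rw [hd1, hd2] at hd'
      linear_combination d1 * hd'
  have l0 : l ≠ 0 := by
    rintro rfl
    rw [zero_mul, add_zero] at l1 l2
    exact h2 (Prod.ext (by exact_mod_cast l1.symm) (by exact_mod_cast l2.symm))
  have l1' : 1 - l ≠ 0 := by
    intro e
    have : l = 1 := by linarith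
    subst this
    rw [one_mul, ← hd1] at l1
    rw [one_mul, ← hd2] at l2
    exact h3 (Prod.ext (by exact_mod_cast l1.symm) (by exact_mod_cast l2.symm))
  intro e
  have : eps N * ((c N r : ℝ) - c N q) * (d1 ^ 2 + d2 ^ 2) * l * (1 - l) = 0 := by
    simp only [hq, c] at e ⊢
    push_cast at e ⊢
    rw [hd1, hd2, l1, l2] at e
    rw [hd1, hd2]
    linear_combination e
  simp only [mul_eq_zero] at this
  rcases this with (((h | h) | h) | h) | h
  exacts [e1.ne' h, hc h, hD.ne' h, l0 h, l1' h]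

noncomputable def mu (a b j : ℤ) : ℝ := j * ((a : ℝ) ^ 2 + (b : ℝ) ^ 2) - 1 / 2

noncomputable def uu (N : ℕ) (a b j : ℤ) : Pt :=
  (-b - eps N * mu a b j * N, a + eps N * mu a b j)

theorem val_eq (N : ℕ) (a b j : ℤ) (r : ℤ × ℤ) : ip (P N (hq N) r) (uu N a b j) =
    ((a * r.2 - b * r.1 : ℤ) : ℝ) + eps N * (mu a b j * c N r +
      ((r.1 : ℝ) ^ 2 + (r.2 : ℝ) ^ 2) * (a * N - b)) := by
  simp only [ip, P, hq, uu, c]
  push_cast
  ring

theorem val_near {N : ℕ} {a b j : ℤ} (ha : |a| < N) (hb : |b| < N)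
    (hm : |mu a b j| ≤ 7 * (N : ℝ) ^ 2) {r : ℤ × ℤ} (hr : InG N r) :
    |ip (P N (hq N) r) (uu N a b j) - ((a * r.2 - b * r.1 : ℤ) : ℝ)| ≤ 9 / 20 := by
  rw [val_eq, add_sub_cancel_left]
  have hN := hr.one_le
  obtain ⟨e1, e2⟩ := eps_spec hN
  have h0 : InG N (0, 0) := by
    have : (1 : ℤ) ≤ N := by exact_mod_cast hN
    exact ⟨le_rfl, by omega, le_rfl, by omega⟩
  have h1 : |(c N r : ℝ)| ≤ 2 * (N : ℝ) ^ 2 := by simpa [c] using c_bd hr h0
  have h2 := sq_bd hr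
  have ha' : |(a : ℝ)| ≤ N := by exact_mod_cast ha.le
  have hb' : |(b : ℝ)| ≤ N := by exact_mod_cast hb.le
  have h3 : |(a : ℝ) * N - b| ≤ 2 * (N : ℝ) ^ 2 := by
    rw [abs_le] at ha' hb' ⊢
    constructor <;> nlinarith
  have h4 : |mu a b j * c N r| ≤ 7 * (N : ℝ) ^ 2 * (2 * (N : ℝ) ^ 2) := by
    rw [abs_mul]
    exact mul_le_mul hm h1 (abs_nonneg _) (by positivity)
  have h5 : |((r.1 : ℝ) ^ 2 + (r.2 : ℝ) ^ 2) * (a * N - b)| ≤
      2 * (N : ℝ) ^ 2 * (2 * (N : ℝ) ^ 2) := by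
    rw [abs_mul, abs_of_nonneg (by positivity)]
    exact mul_le_mul h2 h3 (abs_nonneg _) (by positivity)
  rw [abs_mul, abs_of_pos e1]
  have h6 := (abs_add_le _ _).trans (add_le_add h4 h5)
  nlinarith

theorem val_line (N : ℕ) (a b j s : ℤ) (r r' : ℤ × ℤ) (h1 : r'.1 = r.1 + s * a)
    (h2 : r'.2 = r.2 + s * b) :
    ip (P N (hq N) r') (uu N a b j) - ip (P N (hq N) r) (uu N a b j) =
      eps N * (a * N - b) * s * (((r.1 + r'.1) * a + (r.2 + r'.2) * b -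
        j * (a ^ 2 + b ^ 2) : ℤ) + 1 / 2) := by
  rw [val_eq, val_eq]
  simp only [c, mu, h1, h2]
  push_cast
  ring

theorem on_line {a b : ℤ} (hco : IsCoprime a b) (r r' : ℤ × ℤ)
    (h : a * r'.2 - b * r'.1 = a * r.2 - b * r.1) :
    ∃ s : ℤ, r'.1 = r.1 + s * a ∧ r'.2 = r.2 + s * b := by
  obtain ⟨u, w, e⟩ := hco
  refine ⟨(r'.1 - r.1) * u + (r'.2 - r.2) * w, ?_, ?_⟩
  · linear_combination (-(r'.1 - r.1)) * e - w * h
  · linear_combination (-(r'.2 - r.2)) * e + u * h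

theorem adj {N : ℕ} {a b j t : ℤ} (hco : IsCoprime a b) (ha : |a| < N) (hb : |b| < N)
    {q q' : ℤ × ℤ} (hq' : InG N q) (hq'' : InG N q') (h1 : q'.1 = q.1 + t * a)
    (h2 : q'.2 = q.2 + t * b)
    (hj1 : j * (a ^ 2 + b ^ 2) ≤ (q.1 + q'.1) * a + (q.2 + q'.2) * b)
    (hj2 : (q.1 + q'.1) * a + (q.2 + q'.2) * b < (j + 1) * (a ^ 2 + b ^ 2)) :
    (∀ r r', InG N r → InG N r' →
      ip (P N (hq N) r) (uu N a b j) = ip (P N (hq N) r') (uu N a b j) → r = r') ∧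
    ∀ r, InG N r → 0 ≤ (ip (P N (hq N) r) (uu N a b j) - ip (P N (hq N) q) (uu N a b j)) *
      (ip (P N (hq N) r) (uu N a b j) - ip (P N (hq N) q') (uu N a b j)) := by
  have hN := hq'.one_le
  obtain ⟨e1, -⟩ := eps_spec hN
  have hm : |mu a b j| ≤ 7 * (N : ℝ) ^ 2 := by
    have hN' : (1 : ℤ) ≤ N := by exact_mod_cast hN
    obtain ⟨a1, a2, a3, a4⟩ := hq'
    obtain ⟨b1, b2, b3, b4⟩ := hq''
    rw [abs_lt] at ha hb
    have s1 : (q.1 + q'.1) * a ≤ 2 * N ^ 2 := by nlinarith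
    have s2 : (q.2 + q'.2) * b ≤ 2 * N ^ 2 := by nlinarith
    have s3 : -(2 * N ^ 2) ≤ (q.1 + q'.1) * a := by nlinarith
    have s4 : -(2 * N ^ 2) ≤ (q.2 + q'.2) * b := by nlinarith
    have s5 : a ^ 2 + b ^ 2 ≤ 2 * N ^ 2 := by nlinarith
    have t1 : j * (a ^ 2 + b ^ 2) ≤ 4 * N ^ 2 := by linarith
    have t2 : -(6 * (N : ℤ) ^ 2) ≤ j * (a ^ 2 + b ^ 2) := by linarith
    have t1' : (j : ℝ) * (a ^ 2 + b ^ 2) ≤ 4 * (N : ℝ) ^ 2 := by exact_mod_cast t1
    have t2' : -(6 * (N : ℝ) ^ 2) ≤ j * (a ^ 2 + b ^ 2) := by exact_mod_cast t2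
    rw [mu, abs_le]
    constructor <;> nlinarith
  have hc : (a : ℝ) * N - b ≠ 0 := by
    intro e
    have e' : a * N - b = 0 := by exact_mod_cast e
    rw [abs_lt] at hb
    have : a = 0 := by
      rcases lt_trichotomy a 0 with h | h | h
      · nlinarith
      · exact h
      · nlinarith
    subst this
    have : b = 0 := by linarith
    subst this
    exact not_isCoprime_zero_zero hco
  have far : ∀ r r', InG N r → InG N r' → a * r.2 - b * r.1 < a * r'.2 - b * r'.1 →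
      ip (P N (hq N) r) (uu N a b j) < ip (P N (hq N) r') (uu N a b j) := by
    intro r r' hr hr' h
    have x1 := abs_le.mp (val_near ha hb hm hr)
    have x2 := abs_le.mp (val_near ha hb hm hr')
    have : ((a * r.2 - b * r.1 : ℤ) : ℝ) + 1 ≤ ((a * r'.2 - b * r'.1 : ℤ) : ℝ) := by
      exact_mod_cast h
    linarith
  constructor
  · intro r r' hr hr' e
    rcases lt_trichotomy (a * r.2 - b * r.1) (a * r'.2 - b * r'.1) with h | h | h
    · exact absurd e (far r r' hr hr' h).ne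
    · obtain ⟨s, s1, s2⟩ := on_line hco r r' h.symm
      have := val_line N a b j s r r' s1 s2
      rw [e, sub_self] at this
      generalize (r.1 + r'.1) * a + (r.2 + r'.2) * b - j * (a ^ 2 + b ^ 2) = z at this
      have hz : (z : ℝ) + 1 / 2 ≠ 0 := by
        intro e
        have : (2 * z + 1 : ℝ) = 0 := by linarith
        have : 2 * z + 1 = 0 := by exact_mod_cast this
        omega
      have hs : (s : ℝ) = 0 := by
        by_contra hs
        exact mul_ne_zero (mul_ne_zero (mul_ne_zero e1.ne' hc) hs) hz this.symm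
      have hs' : s = 0 := by exact_mod_cast hs
      subst hs'
      exact Prod.ext (by linarith) (by linarith)
    · exact absurd e (far r' r hr' hr h).ne'
  · intro r hr
    have hl : a * q'.2 - b * q'.1 = a * q.2 - b * q.1 := by rw [h1, h2]; ring
    rcases lt_trichotomy (a * r.2 - b * r.1) (a * q.2 - b * q.1) with h | h | h
    · have x1 := far r q hr hq' h
      have x2 := far r q' hr hq'' (by rw [hl]; exact h)
      nlinarith
    · obtain ⟨s, s1, s2⟩ := on_line hco q r h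
      rw [val_line N a b j s q r s1 s2,
        val_line N a b j (s - t) q' r (by rw [s1, h1]; ring) (by rw [s2, h2]; ring)]
      obtain ⟨G, hG⟩ : ∃ G, G = (q.1 + q'.1) * a + (q.2 + q'.2) * b - j * (a ^ 2 + b ^ 2) :=
        ⟨_, rfl⟩
      have g1 : (q.1 + r.1) * a + (q.2 + r.2) * b - j * (a ^ 2 + b ^ 2) =
          G + (s - t) * (a ^ 2 + b ^ 2) := by rw [hG, s1, s2, h1, h2]; ring
      have g2 : (q'.1 + r.1) * a + (q'.2 + r.2) * b - j * (a ^ 2 + b ^ 2) =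
          G + s * (a ^ 2 + b ^ 2) := by rw [hG, s1, s2, h1, h2]; ring
      rw [g1, g2]
      have G0 : 0 ≤ G := by linarith
      have G1 : G < a ^ 2 + b ^ 2 := by linarith
      generalize a ^ 2 + b ^ 2 = V at *
      have key : ∀ k : ℤ, (0 : ℝ) ≤ k * (((G + k * V : ℤ) : ℝ) + 1 / 2) := by
        intro k
        have : 0 ≤ k * (2 * (G + k * V) + 1) := by
          rcases le_or_gt 0 k with hk | hk
          · have : 0 ≤ k * V := mul_nonneg hk (by omega)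
            exact mul_nonneg hk (by omega)
          · have : k * V ≤ -V := by nlinarith
            exact mul_nonneg_of_nonpos_of_nonpos hk.le (by omega)
        have : (0 : ℝ) ≤ k * (2 * ((G + k * V : ℤ) : ℝ) + 1) := by exact_mod_cast this
        linarith
      have := mul_nonneg (sq_nonneg (eps N * (a * N - b))) (mul_nonneg (key s) (key (s - t)))
      refine this.trans_eq ?_
      ring
    · have x1 := far q r hq' hr h
      have x2 := far q' r hq'' hr (by rw [hl]; exact h)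
      nlinarith

def dir (r : ℕ) (o : Bool) (b : ℤ) : ℤ × ℤ := if o then (r, b) else (b, r)

theorem prim {N : ℕ} {q q' : ℤ × ℤ} (hq' : InG N q) (hq'' : InG N q') (hne : q ≠ q') :
    ∃ (r : ℕ) (o : Bool) (b t : ℤ), 1 ≤ r ∧ r < N ∧ |b| ≤ r ∧ IsCoprime (r : ℤ) b ∧
      q'.1 = q.1 + t * (dir r o b).1 ∧ q'.2 = q.2 + t * (dir r o b).2 := by
  have hg : 0 < Int.gcd (q'.1 - q.1) (q'.2 - q.2) := by
    rw [Int.gcd_pos_iff]
    by_contra h
    exact hne (Prod.ext (by omega) (by omega))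
  obtain ⟨x, y, hxy, e1, e2⟩ := Int.exists_gcd_one hg
  generalize Int.gcd (q'.1 - q.1) (q'.2 - q.2) = g at *
  have hco : IsCoprime x y := Int.isCoprime_iff_gcd_eq_one.mpr hxy
  obtain ⟨a1, a2, a3, a4⟩ := hq'
  obtain ⟨b1, b2, b3, b4⟩ := hq''
  have hg' : (1 : ℤ) ≤ g := by exact_mod_cast hg
  have hx : -(N : ℤ) < x ∧ x < N := by constructor <;> nlinarith
  have hy : -(N : ℤ) < y ∧ y < N := by constructor <;> nlinarith
  have h0 : x ≠ 0 ∨ y ≠ 0 := by
    by_contra h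
    push Not at h
    rw [h.1, h.2] at hco
    exact not_isCoprime_zero_zero hco
  by_cases c1 : y.natAbs ≤ x.natAbs
  · rcases le_or_gt 0 x with h | h
    · obtain ⟨r, rfl⟩ := Int.eq_ofNat_of_zero_le h
      refine ⟨r, true, y, g, by omega, by omega, abs_le.mpr (by omega), hco, ?_, ?_⟩ <;>
        simp only [dir, if_true] <;> linarith
    · obtain ⟨r, hr⟩ := Int.eq_ofNat_of_zero_le (a := -x) (by omega)
      refine ⟨r, true, -y, -g, by omega, by omega, abs_le.mpr (by omega),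
        by rw [← hr]; exact hco.neg_neg,
        ?_, ?_⟩ <;> simp only [dir, if_true, ← hr] <;> linarith
  · rcases le_or_gt 0 y with h | h
    · obtain ⟨r, rfl⟩ := Int.eq_ofNat_of_zero_le h
      refine ⟨r, false, x, g, by omega, by omega, abs_le.mpr (by omega), hco.symm, ?_, ?_⟩ <;>
        simp only [dir, Bool.false_eq_true, if_false] <;> linarith
    · obtain ⟨r, hr⟩ := Int.eq_ofNat_of_zero_le (a := -y) (by omega)
      refine ⟨r, false, -x, -g, by omega, by omega, abs_le.mpr (by omega),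
        by rw [← hr]; exact hco.symm.neg_neg,
        ?_, ?_⟩ <;> simp only [dir, Bool.false_eq_true, if_false, ← hr] <;> linarith

noncomputable def TT (N : ℕ) : Finset (Σ _ : ℕ, Bool × ℤ × ℤ) :=
  (Finset.Icc 1 N).sigma fun r => Finset.univ ×ˢ Finset.Icc (-(r : ℤ)) r ×ˢ
    Finset.Icc (-((4 * N / r + 1 : ℕ) : ℤ)) (4 * N / r + 1 : ℕ)

theorem TT_card (N : ℕ) : (TT N).card ≤ 66 * N ^ 2 := by
  rw [TT, Finset.card_sigma]
  refine (Finset.sum_le_card_nsmul _ _ (66 * N) fun r hr => ?_).trans (by simp; nlinarith)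
  rw [Finset.mem_Icc] at hr
  have h1 : ∀ k : ℕ, (Finset.Icc (-(k : ℤ)) k).card = 2 * k + 1 := by
    intro k; rw [Int.card_Icc]; omega
  rw [Finset.card_product, Finset.card_product, h1, h1]
  have := Nat.div_mul_le_self (4 * N) r
  simp only [Finset.card_univ, Fintype.card_bool]
  generalize 4 * N / r = J at *
  nlinarith

open Classical in
theorem upper {N : ℕ} (Q : Finset (ℤ × ℤ)) (hQ : ∀ q ∈ Q, InG N q) (hne : Q.Nonempty) :
    mc (Q.image (P N (hq N))) ≤ 66 * N ^ 2 := by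
  choose ξ hξ using sorted (hne.image (P N (hq N)))
  refine (Nat.sInf_le (cover_of (TT N) (fun i => ξ (uu N (dir i.1 i.2.1 i.2.2.1).1
    (dir i.1 i.2.1 i.2.2.1).2 i.2.2.2)) ?_)).trans (TT_card N)
  intro a ha b hb hab
  obtain ⟨q, hq1, rfl⟩ := Finset.mem_image.mp ha
  obtain ⟨q', hq2, rfl⟩ := Finset.mem_image.mp hb
  have g1 := hQ q hq1
  have g2 := hQ q' hq2
  obtain ⟨r, o, b, t, r1, r2, r3, hco, e1, e2⟩ := prim g1 g2 (fun e => hab (by rw [e]))
  obtain ⟨x, y, hxy⟩ : ∃ x y, dir r o b = (x, y) := ⟨_, _, rfl⟩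
  have f1 : IsCoprime x y ∧ |x| ≤ r ∧ |y| ≤ r ∧ (r : ℤ) ^ 2 ≤ x ^ 2 + y ^ 2 := by
    cases o <;> simp only [dir, Bool.false_eq_true, if_false, if_true, Prod.mk.injEq] at hxy <;>
      obtain ⟨rfl, rfl⟩ := hxy
    · exact ⟨hco.symm, r3, by simp, by nlinarith⟩
    · exact ⟨hco, by simp, r3, by nlinarith⟩
  obtain ⟨f1, f2, f3, f4⟩ := f1
  rw [hxy] at e1 e2
  have r1' : (1 : ℤ) ≤ r := by exact_mod_cast r1
  have hV : 0 < x ^ 2 + y ^ 2 := by nlinarith
  obtain ⟨S, hS⟩ : ∃ S, S = (q.1 + q'.1) * x + (q.2 + q'.2) * y := ⟨_, rfl⟩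
  have j1 : S / (x ^ 2 + y ^ 2) * (x ^ 2 + y ^ 2) ≤ S := Int.ediv_mul_le _ hV.ne'
  have j2 : S < (S / (x ^ 2 + y ^ 2) + 1) * (x ^ 2 + y ^ 2) := Int.lt_ediv_add_one_mul_self _ hV
  generalize S / (x ^ 2 + y ^ 2) = j at j1 j2
  obtain ⟨k1, k2⟩ := adj (j := j) f1 (by omega) (by omega) g1 g2 e1 e2 (hS ▸ j1) (hS ▸ j2)
  refine ⟨⟨r, o, b, j⟩, ?_, ?_⟩
  · obtain ⟨a1, a2, a3, a4⟩ := g1
    obtain ⟨b1, b2, b3, b4⟩ := g2
    rw [abs_le] at f2 f3 r3
    have s1 : (q.1 + q'.1) * x ≤ 2 * N * r := by nlinarith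
    have s2 : (q.2 + q'.2) * y ≤ 2 * N * r := by nlinarith
    have s3 : -(2 * N * r) ≤ (q.1 + q'.1) * x := by nlinarith
    have s4 : -(2 * N * r) ≤ (q.2 + q'.2) * y := by nlinarith
    have key : ∀ k : ℤ, k * (x ^ 2 + y ^ 2) ≤ 4 * N * r → k ≤ (4 * N / r : ℕ) := by
      intro k hk
      push_cast
      rcases le_or_gt k 0 with h | h
      · exact h.trans (Int.ediv_nonneg (by positivity) (by positivity))
      · apply Int.le_ediv_of_mul_le (by omega)
        nlinarith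
    have u1 := key j (by linarith)
    have u2 := key (-j - 1) (by linarith)
    simp only [TT, Finset.mem_sigma, Finset.mem_Icc, Finset.mem_product, Finset.mem_univ, true_and]
    omega
  · simp only [hxy]
    refine hξ _ ?_ _ ha _ hb hab ?_
    · intro a ha b hb e
      obtain ⟨r, hr, rfl⟩ := Finset.mem_image.mp ha
      obtain ⟨r', hr', rfl⟩ := Finset.mem_image.mp hb
      rw [k1 r r' (hQ r hr) (hQ r' hr') e]
    · intro a ha
      obtain ⟨r, hr, rfl⟩ := Finset.mem_image.mp ha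
      exact k2 r (hQ r hr)

theorem Q2 (n : ℕ) (hn : 1 ≤ n) :
    ∃ A : Finset Pt, A.card = n ∧ GenPos A ∧ IsDense 8 A ∧ mc A ≤ 264 * n := by
  classical
  obtain ⟨Q, h1, h2, -, h4⟩ := grid n hn
  obtain ⟨g1, g2, g3⟩ := good (hq_small _) Q h2 (by rw [h1]; exact h4) (hq_gen _)
  refine ⟨_, g1.trans h1, g2, g3, (upper Q h2 (Finset.card_pos.mp (by omega))).trans ?_⟩
  have : (n.sqrt + 1) ^ 2 ≤ 4 * n := by exact_mod_cast h4
  omega

end Pool.Agent.H.MP_9c8b61_co
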