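import Pool.Agent.H.MP_9c8b61_co.A

namespace Pool.Agent.H.MP_9c8b61_co

noncomputable def MM (N : ℕ) : ℝ := 8 * (N : ℝ) ^ 2 + 2

/-- The exponential perturbation. -/
noncomputable def he (N : ℕ) (q : ℤ × ℤ) : ℝ :=
  MM N ^ (N * q.1 + q.2 - (N : ℤ) ^ 2) / (8 * (N : ℝ) ^ 2)

theorem MM_ge (N : ℕ) : 1 ≤ MM N := by unfold MM; nlinarith [sq_nonneg (N : ℝ)]

theorem he_pos {N : ℕ} {q : ℤ × ℤ} (h : InG N q) : 0 < he N q := by
  have := h.one_le
  have := MM_ge N
  unfold he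
  positivity

theorem he_small (N : ℕ) : Small N (he N) := by
  intro q h
  refine ⟨(he_pos h).le, ?_⟩
  have := h.one_le
  unfold he
  rw [mul_div_cancel₀ _ (by positivity)]
  obtain ⟨a1, a2, a3, a4⟩ := h
  exact zpow_le_one_of_nonpos₀ (MM_ge N) (by nlinarith)

theorem he_grow {N : ℕ} {q r : ℤ × ℤ} (h : InG N q) (e : N * q.1 + q.2 < N * r.1 + r.2) :
    MM N * he N q ≤ he N r := by
  have := h.one_le
  have h1 := MM_ge N
  unfold he
  rw [← mul_div_assoc]
  apply div_le_div_of_nonneg_right _ (by positivity)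
  rw [mul_comm, ← zpow_add_one₀ (by positivity)]
  exact zpow_le_zpow_right₀ h1 (by omega)

theorem he_x {N : ℕ} {q r : ℤ × ℤ} (h : InG N q) (h' : InG N r) (e : q.1 < r.1) :
    MM N * he N q ≤ he N r := by
  apply he_grow h
  obtain ⟨a1, a2, a3, a4⟩ := h
  obtain ⟨b1, b2, b3, b4⟩ := h'
  nlinarith

theorem phi_inj {N : ℕ} {q r : ℤ × ℤ} (hq : InG N q) (hr : InG N r)
    (e : N * q.1 + q.2 = N * r.1 + r.2) : q = r := by
  obtain ⟨a1, a2, a3, a4⟩ := hq
  obtain ⟨b1, b2, b3, b4⟩ := hr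
  have : q.1 = r.1 := by
    rcases lt_trichotomy q.1 r.1 with h | h | h
    · nlinarith
    · exact h
    · nlinarith
  exact Prod.ext this (by rw [this] at e; omega)

theorem top {N : ℕ} {q r s : ℤ × ℤ} (hq : InG N q) (hr : InG N r) (hs : InG N s) (h : r ≠ s)
    (e1 : N * r.1 + r.2 < N * q.1 + q.2) (e2 : N * s.1 + s.2 < N * q.1 + q.2) :
    he N q * (c N r - c N s) + he N r * (c N s - c N q) + he N s * (c N q - c N r) ≠ 0 := by
  have g1 := he_grow hr e1
  have g2 := he_grow hs e2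
  have p1 := he_pos hr
  have p2 := he_pos hs
  have p3 := he_pos hq
  have b1 := abs_le.mp (c_bd hs hq)
  have b2 := abs_le.mp (c_bd hq hr)
  have hne : c N r ≠ c N s := fun e => h (c_inj hr hs e)
  unfold MM at g1 g2
  have k1 : |he N r * (c N s - c N q)| ≤ he N q / 4 := by
    rw [abs_le]; constructor <;> nlinarith
  have k2 : |he N s * (c N q - c N r)| ≤ he N q / 4 := by
    rw [abs_le]; constructor <;> nlinarith
  rw [abs_le] at k1 k2
  rcases lt_or_gt_of_ne hne with h1 | h1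
  · have : (c N r : ℝ) + 1 ≤ c N s := by exact_mod_cast h1
    nlinarith
  · have : (c N s : ℝ) + 1 ≤ c N r := by exact_mod_cast h1
    nlinarith

theorem he_gen (N : ℕ) (q r s : ℤ × ℤ) (hq : InG N q) (hr : InG N r) (hs : InG N s)
    (h1 : q ≠ r) (h2 : q ≠ s) (h3 : r ≠ s)
    (_ : (r.1 - q.1) * (s.2 - q.2) = (r.2 - q.2) * (s.1 - q.1)) :
    (he N r - he N q) * (c N s - c N q) ≠ (he N s - he N q) * (c N r - c N q) := by
  intro e
  have n1 : N * q.1 + q.2 ≠ N * r.1 + r.2 := fun e => h1 (phi_inj hq hr e)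
  have n2 : N * q.1 + q.2 ≠ N * s.1 + s.2 := fun e => h2 (phi_inj hq hs e)
  have n3 : N * r.1 + r.2 ≠ N * s.1 + s.2 := fun e => h3 (phi_inj hr hs e)
  have : (N * r.1 + r.2 < N * q.1 + q.2 ∧ N * s.1 + s.2 < N * q.1 + q.2) ∨
      (N * s.1 + s.2 < N * r.1 + r.2 ∧ N * q.1 + q.2 < N * r.1 + r.2) ∨
      (N * q.1 + q.2 < N * s.1 + s.2 ∧ N * r.1 + r.2 < N * s.1 + s.2) := by omega
  rcases this with h | h | h
  · exact top hq hr hs h3 h.1 h.2 (by linear_combination e)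
  · exact top hr hs hq h2.symm h.1 h.2 (by linear_combination e)
  · exact top hs hq hr h1 h.1 h.2 (by linear_combination e)

theorem key {α γ xa xa' xb xb' ha ha' hb hb' L M : ℝ} (x1 : xa + 1 ≤ xb) (x2 : xa' + 1 ≤ xb)
    (x3 : xb < xb') (x4 : xb' - xa ≤ L) (x5 : xb' - xa' ≤ L) (h1 : 0 < ha) (h2 : ha ≤ hb)
    (h3 : 0 < ha') (h4 : ha' ≤ hb) (h5 : M * hb ≤ hb') (hM : L + 2 ≤ M)
    (v1 : α * xa + γ * ha ≤ α * xb + γ * hb) (v2 : α * xb + γ * hb ≤ α * xa' + γ * ha')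
    (v3 : α * xa + γ * ha ≤ α * xb' + γ * hb') (v4 : α * xb' + γ * hb' ≤ α * xa' + γ * ha') :
    α * xb + γ * hb = α * xb' + γ * hb' := by
  have hb0 : 0 < hb := by linarith
  have hL : 1 ≤ L := by linarith
  have k1 : (L + 1) * hb ≤ hb' - ha := by nlinarith
  have k2 : (L + 1) * hb ≤ hb' - ha' := by nlinarith
  have k3 : 0 < (L + 1) * hb := by positivity
  rcases lt_trichotomy γ 0 with g | g | g
  · exfalso
    have m1 : γ * (hb' - ha) ≤ γ * ((L + 1) * hb) := by nlinarith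
    rcases le_or_gt α 0 with a | a
    · nlinarith
    · have m2 : α ≤ -γ * hb := by nlinarith
      have m3 : α * (xb' - xa) ≤ -γ * hb * L := by nlinarith
      nlinarith
  · subst g
    rcases lt_trichotomy α 0 with a | a | a
    · exfalso; nlinarith
    · simp [a]
    · exfalso; nlinarith
  · exfalso
    have m1 : γ * ((L + 1) * hb) ≤ γ * (hb' - ha') := by nlinarith
    rcases le_or_gt 0 α with a | a
    · nlinarith
    · have m2 : -α ≤ γ * hb := by nlinarith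
      have m3 : -α * (xb' - xa') ≤ γ * hb * L := by nlinarith
      nlinarith

theorem line {N : ℕ} {p b κ H : ℤ} (hp : 0 < p) (u : Pt) {a a' d d' : ℤ × ℤ} (g1 : InG N a)
    (g2 : InG N a') (g3 : InG N d) (g4 : InG N d') (l1 : p * a.2 - b * a.1 = κ)
    (l2 : p * a'.2 - b * a'.1 = κ) (l3 : p * d.2 - b * d.1 = κ) (l4 : p * d'.2 - b * d'.1 = κ)
    (x1 : a.1 < H) (x2 : a'.1 < H) (x3 : H ≤ d.1) (x4 : H ≤ d'.1)
    (v1 : ip (P N (he N) a) u ≤ ip (P N (he N) d) u)
    (v2 : ip (P N (he N) d) u < ip (P N (he N) d') u)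
    (v3 : ip (P N (he N) d') u ≤ ip (P N (he N) a') u) : False := by
  have hp' : (0 : ℝ) < p := by exact_mod_cast hp
  have val : ∀ r : ℤ × ℤ, p * r.2 - b * r.1 = κ → ip (P N (he N) r) u =
      κ / p * u.2 + ((u.1 + b / p * u.2) * r.1 + (u.1 + N * u.2) * he N r) := by
    intro r hr
    have : (κ : ℝ) = p * r.2 - b * r.1 := by exact_mod_cast hr.symm
    simp only [ip, P]
    rw [this]
    field_simp
    ring
  rw [val _ l1, val _ l3] at v1
  rw [val _ l3, val _ l4] at v2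
  rw [val _ l4, val _ l2] at v3
  have hN := g1.one_le
  have hM : (N : ℝ) + 2 ≤ MM N := by unfold MM; nlinarith
  have mono : ∀ r s, InG N r → InG N s → r.1 < s.1 → he N r ≤ he N s := by
    intro r s hr hs h
    have := he_x hr hs h
    have := he_pos hr
    nlinarith
  have cast : ∀ x y : ℤ, x < y → (x : ℝ) + 1 ≤ y := fun x y h => by exact_mod_cast h
  obtain ⟨a1, a2, -, -⟩ := g1.real
  obtain ⟨b1, b2, -, -⟩ := g2.real
  obtain ⟨c1, c2, -, -⟩ := g3.real
  obtain ⟨d1, d2, -, -⟩ := g4.real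
  rcases lt_trichotomy d.1 d'.1 with h | h | h
  · have := key (α := u.1 + b / p * u.2) (γ := u.1 + N * u.2) (L := N) (xb' := d'.1)
      (cast a.1 d.1 (by omega)) (cast a'.1 d.1 (by omega)) (by have := cast _ _ h; linarith)
      (by linarith) (by linarith) (he_pos g1) (mono _ _ g1 g3 (by omega)) (he_pos g2)
      (mono _ _ g2 g3 (by omega)) (he_x g3 g4 h) hM (by linarith) (by linarith) (by linarith)
      (by linarith)
    linarith
  · have : d = d' := Prod.ext h (by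
      rw [h] at l3
      exact mul_left_cancel₀ hp.ne' (by linarith))
    subst this
    exact lt_irrefl _ v2
  · have := key (α := u.1 + b / p * u.2) (γ := u.1 + N * u.2) (L := N) (xb' := d.1)
      (cast a.1 d'.1 (by omega)) (cast a'.1 d'.1 (by omega)) (by have := cast _ _ h; linarith)
      (by linarith) (by linarith) (he_pos g1) (mono _ _ g1 g4 (by omega)) (he_pos g2)
      (mono _ _ g2 g4 (by omega)) (he_x g4 g3 h) hM (by linarith) (by linarith) (by linarith)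
      (by linarith)
    linarith

/-- Special edges. -/
def Sp (H p : ℕ) (e : (ℤ × ℤ) × ℤ) : Prop :=
  InG H e.1 ∧ ((H / p + 1 : ℕ) : ℤ) ≤ e.2 ∧ e.2 < 2 * ((H / p + 1 : ℕ) : ℤ)

def up (p b : ℕ) (e : (ℤ × ℤ) × ℤ) : ℤ × ℤ := (e.1.1 + e.2 * p, e.1.2 + e.2 * b)

theorem Sp.bd {H p b N : ℕ} {e : (ℤ × ℤ) × ℤ} (h : Sp H p e) (hb : b < p) (hp : 2 * p ≤ H)
    (hN : 4 * H ≤ N) : InG N e.1 ∧ InG N (up p b e) ∧ e.1.1 < H ∧ (H : ℤ) ≤ (up p b e).1 ∧
      (H : ℤ) ≤ e.2 * p := by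
  obtain ⟨⟨a1, a2, a3, a4⟩, h1, h2⟩ := h
  have t1 : H < (H / p + 1) * p := by
    have := Nat.lt_div_mul_add (a := H) (b := p) (by omega)
    nlinarith
  have t2 : (H / p + 1) * p ≤ H + p := by
    have := Nat.div_mul_le_self H p
    nlinarith
  generalize H / p + 1 = T at *
  have t1' : (H : ℤ) < T * p := by exact_mod_cast t1
  have t2' : (T : ℤ) * p ≤ H + p := by exact_mod_cast t2
  have hb' : (b : ℤ) < p := by exact_mod_cast hb
  have s1 : (H : ℤ) ≤ e.2 * p := by nlinarith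
  have s2 : e.2 * p ≤ 2 * (H + p) := by nlinarith
  have s3 : 0 ≤ e.2 * b := mul_nonneg (by omega) (by positivity)
  have s4 : e.2 * b ≤ e.2 * p := by nlinarith
  simp only [InG, up]
  omega

def IsE {A : Finset Pt} (N p b : ℕ) (ξ : MPath A) (i : ℕ) (e : (ℤ × ℤ) × ℤ) : Prop :=
  (ξ.v i = P N (he N) e.1 ∧ ξ.v (i + 1) = P N (he N) (up p b e)) ∨
    (ξ.v i = P N (he N) (up p b e) ∧ ξ.v (i + 1) = P N (he N) e.1)

open Classical in
noncomputable def II {A : Finset Pt} (N H p b : ℕ) (ξ : MPath A) : Finset ℕ :=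
  (Finset.range ξ.t).filter fun i => ∃ e, Sp H p e ∧ IsE N p b ξ i e

theorem gmono {A : Finset Pt} (ξ : MPath A) {u : Pt} (hu : ∀ i < ξ.t, 0 < ip (ξ.v (i + 1) - ξ.v i) u)
    {i j : ℕ} (h : i ≤ j) (hj : j ≤ ξ.t) : ip (ξ.v i) u ≤ ip (ξ.v j) u := by
  induction j, h using Nat.le_induction with
  | base => exact le_rfl
  | succ j h ih =>
    have := hu j (by omega)
    rw [ip_sub] at this
    linarith [ih (by omega)]

theorem lemA {A : Finset Pt} {N H p b : ℕ} (ξ : MPath A) (hb : b < p) (hp : 2 * p ≤ H)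
    (hN : 4 * H ≤ N) : (II N H p b ξ).card ≤ 12 * p * H := by
  classical
  obtain ⟨u, -, hu⟩ := ξ.mono
  have : ∀ i : ℕ, ∃ e, i ∈ II N H p b ξ → i < ξ.t ∧ Sp H p e ∧ IsE N p b ξ i e := by
    intro i
    by_cases h : i ∈ II N H p b ξ
    · obtain ⟨h1, e, h2⟩ := Finset.mem_filter.mp h
      exact ⟨e, fun _ => ⟨Finset.mem_range.mp h1, h2⟩⟩
    · exact ⟨0, fun h' => absurd h' h⟩
  choose E hE using this
  have in1 : ∀ i ∈ II N H p b ξ, ip (ξ.v i) u ≤ ip (P N (he N) (E i).1) u ∧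
      ip (P N (he N) (E i).1) u ≤ ip (ξ.v (i + 1)) u ∧
      ip (ξ.v i) u ≤ ip (P N (he N) (up p b (E i))) u ∧
      ip (P N (he N) (up p b (E i))) u ≤ ip (ξ.v (i + 1)) u := by
    intro i hi
    obtain ⟨h1, -, h3⟩ := hE i hi
    have := gmono ξ hu (Nat.le_succ i) h1
    rcases h3 with ⟨e1, e2⟩ | ⟨e1, e2⟩ <;> rw [← e1, ← e2] <;> simp only [le_refl, true_and, and_true, and_self] <;> exact this
  have h4 := Finset.card_le_mul_card_image (f := fun i => (p : ℤ) * (E i).1.2 - b * (E i).1.1)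
    (II N H p b ξ) 4 (by
      intro κ _
      by_contra hc
      obtain ⟨s, hs, hs'⟩ := Finset.exists_subset_card_eq (n := 5) (not_le.mp hc)
      let o := s.orderEmbOfFin hs'
      have ho : ∀ k, o k ∈ II N H p b ξ ∧ (p : ℤ) * (E (o k)).1.2 - b * (E (o k)).1.1 = κ :=
        fun k => Finset.mem_filter.mp (hs (s.orderEmbOfFin_mem hs' k))
      have o1 : o 0 < o 1 := o.strictMono (by decide)
      have o2 : o 1 < o 2 := o.strictMono (by decide)
      have o3 : o 2 < o 3 := o.strictMono (by decide)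
      have o4 : o 3 < o 4 := o.strictMono (by decide)
      have t4 := (hE _ (ho 4).1).1
      have B := fun k => (hE _ (ho k).1).2.1.bd hb hp hN
      have m0 := gmono ξ hu (i := o 0 + 1) (j := o 1) o1 (by omega)
      have m1 := gmono ξ hu (i := o 1 + 1) (j := o 2) o2 (by omega)
      have m2 := gmono ξ hu (i := o 2 + 1) (j := o 3) o3 (by omega)
      have m3 := gmono ξ hu (i := o 3 + 1) (j := o 4) o4 (by omega)
      have m4 := hu (o 2) (by omega)
      rw [ip_sub] at m4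
      refine line (p := p) (b := b) (κ := κ) (H := H) (by omega) u (B 0).1 (B 4).1 (B 1).2.1
        (B 3).2.1 (ho 0).2 (ho 4).2 ?_ ?_ (B 0).2.2.1 (B 4).2.2.1 (B 1).2.2.2.1 (B 3).2.2.2.1
        ?_ ?_ ?_
      · rw [← (ho 1).2]; simp only [up]; ring
      · rw [← (ho 3).2]; simp only [up]; ring
      · linarith [(in1 _ (ho 0).1).2.1, (in1 _ (ho 1).1).2.2.1]
      · linarith [(in1 _ (ho 1).1).2.2.2, (in1 _ (ho 3).1).2.2.1]
      · linarith [(in1 _ (ho 3).1).2.2.2, (in1 _ (ho 4).1).1])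
  have h5 : ((II N H p b ξ).image (fun i => (p : ℤ) * (E i).1.2 - b * (E i).1.1)).card ≤
      (Finset.Icc (-((p * H : ℕ) : ℤ)) (p * H : ℕ)).card := by
    apply Finset.card_le_card
    intro κ hκ
    obtain ⟨i, hi, rfl⟩ := Finset.mem_image.mp hκ
    obtain ⟨a1, a2, a3, a4⟩ := (hE i hi).2.1.1
    have hb' : (b : ℤ) < p := by exact_mod_cast hb
    have : (0 : ℤ) ≤ b := by positivity
    rw [Finset.mem_Icc]
    push_cast
    constructor <;> nlinarith
  rw [Int.card_Icc] at h5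
  have : 1 ≤ p * H := Nat.mul_pos (by omega) (by omega)
  have e : 12 * p * H = 12 * (p * H) := by ring
  omega

theorem lemB {A : Finset Pt} {N H p b R : ℕ} (ξ : MPath A) (hb : b < p) (hp : 2 * p ≤ H)
    (hN : 4 * H ≤ N) (hN' : N ≤ 8 * H) (hR : p ≤ R) (hH : 8 * R ^ 2 ≤ H)
    (hA : ∀ a ∈ A, 0 ≤ a.1 ∧ a.1 ≤ N ∧ 0 ≤ a.2 ∧ a.2 ≤ N) {u : Pt} (hu0 : u ≠ 0)
    (hu : ∀ i < ξ.t, 0 < ip (ξ.v (i + 1) - ξ.v i) u)
    (hv : |u.1| + |u.2| ≤ 4 * R * |p * u.1 + b * u.2|) : (II N H p b ξ).card ≤ 64 * R ^ 2 := by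
  classical
  obtain ⟨U, hU⟩ : ∃ U, U = |u.1| + |u.2| := ⟨_, rfl⟩
  have U0 : 0 < U := by
    rw [hU]
    by_contra h
    apply hu0
    ext <;> simp <;> rw [← abs_eq_zero] <;> linarith [abs_nonneg u.1, abs_nonneg u.2]
  have hR1 : (1 : ℝ) ≤ R := by exact_mod_cast (by omega : 1 ≤ R)
  have hH' : 8 * (R : ℝ) ^ 2 ≤ H := by exact_mod_cast hH
  have step : ∀ i ∈ II N H p b ξ, H * U / (8 * (R : ℝ) ^ 2) ≤
      ip (ξ.v (i + 1)) u - ip (ξ.v i) u := by
    intro i hi
    obtain ⟨h1, e, h2, h3⟩ := Finset.mem_filter.mp hi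
    have h4 := hu i (Finset.mem_range.mp h1)
    rw [ip_sub] at h4
    obtain ⟨g1, g2, -, -, g3⟩ := h2.bd hb hp hN
    have h5 : ip (ξ.v (i + 1)) u - ip (ξ.v i) u =
        |ip (P N (he N) (up p b e)) u - ip (P N (he N) e.1) u| := by
      rcases h3 with ⟨e1, e2⟩ | ⟨e1, e2⟩ <;> rw [← e1, ← e2]
      · rw [abs_of_pos h4]
      · rw [abs_sub_comm, abs_of_pos h4]
    have h6 : ip (P N (he N) (up p b e)) u - ip (P N (he N) e.1) u =
        e.2 * (p * u.1 + b * u.2) + ((he N (up p b e) - he N e.1) * u.1 +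
          (N * he N (up p b e) - N * he N e.1) * u.2) := by
      simp only [ip, P, up]
      push_cast
      ring
    obtain ⟨a1, a2, a3, a4⟩ := (he_small N).bd g1
    obtain ⟨b1, b2, b3, b4⟩ := (he_small N).bd g2
    have h7 : |(he N (up p b e) - he N e.1) * u.1 + (N * he N (up p b e) - N * he N e.1) * u.2| ≤
        U := by
      refine (abs_add_le _ _).trans ?_
      rw [abs_mul, abs_mul, hU]
      have c1 : |he N (up p b e) - he N e.1| ≤ 1 := abs_le.mpr ⟨by linarith, by linarith⟩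
      have c2 : |N * he N (up p b e) - N * he N e.1| ≤ 1 := abs_le.mpr ⟨by linarith, by linarith⟩
      nlinarith [abs_nonneg u.1, abs_nonneg u.2]
    have g3' : (H : ℝ) ≤ e.2 * p := by exact_mod_cast g3
    have hR' : (p : ℝ) ≤ R := by exact_mod_cast hR
    have hp0 : (0 : ℝ) < p := by exact_mod_cast (by omega : 0 < p)
    have t0 : (0 : ℝ) ≤ e.2 := by
      by_contra h
      nlinarith
    have t1 : (H : ℝ) ≤ e.2 * R := by nlinarith
    have h8 : |e.2 * (p * u.1 + b * u.2)| - U ≤ ip (ξ.v (i + 1)) u - ip (ξ.v i) u := by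
      rw [h5, h6]
      have := abs_add_le (e.2 * (p * u.1 + b * u.2) + ((he N (up p b e) - he N e.1) * u.1 +
          (N * he N (up p b e) - N * he N e.1) * u.2)) (-((he N (up p b e) - he N e.1) * u.1 +
          (N * he N (up p b e) - N * he N e.1) * u.2))
      rw [add_neg_cancel_right, abs_neg] at this
      linarith
    refine le_trans ?_ h8
    rw [abs_mul, abs_of_nonneg t0, div_le_iff₀ (by positivity)]
    rw [← hU] at hv
    generalize |(p : ℝ) * u.1 + b * u.2| = W at *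
    have w1 : (H : ℝ) * U ≤ e.2 * R * (4 * R * W) :=
      mul_le_mul t1 hv U0.le (by positivity)
    nlinarith
  have tot : ∑ i ∈ II N H p b ξ, (ip (ξ.v (i + 1)) u - ip (ξ.v i) u) ≤ N * U := by
    refine (Finset.sum_le_sum_of_subset_of_nonneg (Finset.filter_subset _ _) fun i hi _ => ?_).trans
      ?_
    · have := hu i (Finset.mem_range.mp hi)
      rw [ip_sub] at this
      exact this.le
    · rw [Finset.sum_range_sub (fun i => ip (ξ.v i) u), ← ip_sub, hU]
      obtain ⟨a1, a2, a3, a4⟩ := hA _ (ξ.mem 0 (by omega))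
      obtain ⟨b1, b2, b3, b4⟩ := hA _ (ξ.mem ξ.t le_rfl)
      simp only [ip, Prod.fst_sub, Prod.snd_sub]
      nlinarith [le_abs_self u.1, neg_abs_le u.1, le_abs_self u.2, neg_abs_le u.2]
  have h1 := (Finset.card_nsmul_le_sum _ _ _ step).trans tot
  rw [nsmul_eq_mul, ← mul_div_assoc, div_le_iff₀ (by positivity)] at h1
  have hN'' : (N : ℝ) ≤ 8 * H := by exact_mod_cast hN'
  have H0 : (0 : ℝ) < H * U := by
    apply mul_pos _ U0
    nlinarith
  have : ((II N H p b ξ).card : ℝ) ≤ 64 * (R : ℝ) ^ 2 := by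
    apply le_of_mul_le_mul_right _ H0
    have : N * U * (8 * (R : ℝ) ^ 2) ≤ 8 * H * U * (8 * (R : ℝ) ^ 2) := by gcongr
    nlinarith
  exact_mod_cast this

theorem lemD {R p b p' b' : ℕ} (hp : p.Prime) (hp' : p'.Prime) (b0 : 0 < b) (hb : b < p)
    (hb' : b' < p') (hR : p ≤ R) (hR' : p' ≤ R) (u : Pt)
    (h1 : ¬ |u.1| + |u.2| ≤ 4 * R * |p * u.1 + b * u.2|)
    (h2 : ¬ |u.1| + |u.2| ≤ 4 * R * |p' * u.1 + b' * u.2|) : p = p' ∧ b = b' := by
  have hd : p * b' = p' * b := by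
    by_contra hne
    have hz : (1 : ℝ) ≤ |(p : ℝ) * b' - p' * b| := by
      have : (1 : ℤ) ≤ |(p : ℤ) * b' - p' * b| :=
        Int.one_le_abs (sub_ne_zero.mpr (by exact_mod_cast hne))
      exact_mod_cast this
    have r1 : (p : ℝ) ≤ R := by exact_mod_cast hR
    have r2 : (p' : ℝ) ≤ R := by exact_mod_cast hR'
    have r3 : (b : ℝ) ≤ R := by exact_mod_cast (by omega : b ≤ R)
    have r4 : (b' : ℝ) ≤ R := by exact_mod_cast (by omega : b' ≤ R)
    have e1 : |u.1| * |(p : ℝ) * b' - p' * b| ≤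
        b' * |p * u.1 + b * u.2| + b * |p' * u.1 + b' * u.2| := by
      rw [← abs_mul, show u.1 * ((p : ℝ) * b' - p' * b) =
        b' * (p * u.1 + b * u.2) - b * (p' * u.1 + b' * u.2) by ring]
      refine (abs_sub _ _).trans ?_
      rw [abs_mul, abs_mul, Nat.abs_cast, Nat.abs_cast]
    have e2 : |u.2| * |(p : ℝ) * b' - p' * b| ≤
        p * |p' * u.1 + b' * u.2| + p' * |p * u.1 + b * u.2| := by
      rw [← abs_mul, show u.2 * ((p : ℝ) * b' - p' * b) =
        p * (p' * u.1 + b' * u.2) - p' * (p * u.1 + b * u.2) by ring]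
      refine (abs_sub _ _).trans ?_
      rw [abs_mul, abs_mul, Nat.abs_cast, Nat.abs_cast]
    have n1 := abs_nonneg ((p : ℝ) * u.1 + b * u.2)
    have n2 := abs_nonneg ((p' : ℝ) * u.1 + b' * u.2)
    have n3 := abs_nonneg u.1
    have n4 := abs_nonneg u.2
    generalize |(p : ℝ) * u.1 + b * u.2| = X at *
    generalize |(p' : ℝ) * u.1 + b' * u.2| = Y at *
    nlinarith
  have : p ∣ p' := by
    rcases (Nat.Prime.dvd_mul hp).mp ⟨b', hd.symm⟩ with h | h
    · exact h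
    · exact absurd (Nat.le_of_dvd b0 h) (by omega)
  have e := (Nat.prime_dvd_prime_iff_eq hp hp').mp this
  subst e
  exact ⟨rfl, (Nat.eq_of_mul_eq_mul_left hp.pos hd).symm⟩

end Pool.Agent.H.MP_9c8b61_co
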